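import Pool.Agent.Q165.TorsionPower

set_option autoImplicit false

/-!
# The rank needed to embed both mates of a latin bitrade is at most logarithmic

If both mates of a latin bitrade `(W, B)` embed in some abelian group, then they embed in an abelian
group generated by at most `log₂ (6 |W|²) + 1` elements.  In particular the least rank cannot grow
linearly in the size.
-/

namespace Pool.Agent.Results.MP_4671c3_co.LogRank

open Finset Filter

universe u

/-- `P` is a partial latin square: any two coordinates (row, column, symbol) of a triple determine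
the third. -/
def IsPLS {R C S : Type} (P : Finset (R × C × S)) : Prop :=
  ∀ p ∈ P, ∀ q ∈ P, (p.1 = q.1 → p.2.1 = q.2.1 → p = q) ∧ (p.1 = q.1 → p.2.2 = q.2.2 → p = q) ∧
    (p.2.1 = q.2.1 → p.2.2 = q.2.2 → p = q)

/-- `(W, B)` is a latin bitrade: two nonempty disjoint partial latin squares that fill the same
cells and have the same symbols in every row and in every column. -/
def IsBitrade {R C S : Type} (W B : Finset (R × C × S)) : Prop :=
  W.Nonempty ∧ B.Nonempty ∧ IsPLS W ∧ IsPLS B ∧ (∀ p ∈ W, p ∉ B) ∧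
    (∀ r c, (∃ s, (r, c, s) ∈ W) ↔ ∃ s, (r, c, s) ∈ B) ∧
    (∀ r s, (∃ c, (r, c, s) ∈ W) ↔ ∃ c, (r, c, s) ∈ B) ∧
    (∀ c s, (∃ r, (r, c, s) ∈ W) ↔ ∃ r, (r, c, s) ∈ B)

/-- `P` embeds in the abelian group `G`: there are maps from rows, columns and symbols to `G`,
injective on those that occur in `P`, with `α r + β c = γ s` for every `(r, c, s) ∈ P`. -/
def Embeds {R C S : Type} (P : Finset (R × C × S)) (G : Type u) [AddCommGroup G] : Prop :=
  ∃ (α : R → G) (β : C → G) (γ : S → G),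
    Set.InjOn α {r | ∃ c s, (r, c, s) ∈ P} ∧ Set.InjOn β {c | ∃ r s, (r, c, s) ∈ P} ∧
    Set.InjOn γ {s | ∃ r c, (r, c, s) ∈ P} ∧ ∀ r c s, (r, c, s) ∈ P → α r + β c = γ s

/-- `G` is generated by `d` elements, i.e. has rank at most `d`. -/
def RankLE (G : Type u) [AddCommGroup G] (d : ℕ) : Prop :=
  ∃ g : Fin d → G, AddSubgroup.closure (Set.range g) = ⊤

/-- The least rank of an abelian group in which both `W` and `B` embed. -/
noncomputable def rho {R C S : Type} (W B : Finset (R × C × S)) : ℕ :=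
  sInf {d | ∃ (G : Type) (_ : AddCommGroup G), RankLE G d ∧ Embeds W G ∧ Embeds B G}

/-- Moving an embedding along separating characters. -/
theorem reduce {R C S : Type} (P : Finset (R × C × S)) {A : Type u} [AddCommGroup A]
    (α : R → A) (β : C → A) (γ : S → A)
    (hα : Set.InjOn α {r | ∃ c s, (r, c, s) ∈ P}) (hβ : Set.InjOn β {c | ∃ r s, (r, c, s) ∈ P})
    (hγ : Set.InjOn γ {s | ∃ r c, (r, c, s) ∈ P})
    (h : ∀ r c s, (r, c, s) ∈ P → α r + β c = γ s)
    {m : ℕ} (χ : Fin m → (A →+ AddCircle (1 : ℚ))) (e : ℕ)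
    (te : ∀ p ∈ P, ∀ i, e • χ i (α p.1) = 0 ∧ e • χ i (β p.2.1) = 0 ∧ e • χ i (γ p.2.2) = 0)
    (sα : ∀ p ∈ P, ∀ q ∈ P, α p.1 - α q.1 ≠ 0 → ∃ i, χ i (α p.1 - α q.1) ≠ 0)
    (sβ : ∀ p ∈ P, ∀ q ∈ P, β p.2.1 - β q.2.1 ≠ 0 → ∃ i, χ i (β p.2.1 - β q.2.1) ≠ 0)
    (sγ : ∀ p ∈ P, ∀ q ∈ P, γ p.2.2 - γ q.2.2 ≠ 0 → ∃ i, χ i (γ p.2.2 - γ q.2.2) ≠ 0) :
    Embeds P (Fin m → Q165.TorsionPower.T e) := by
  refine ⟨fun r i => Q165.TorsionPower.toT e (χ i (α r)),
    fun c i => Q165.TorsionPower.toT e (χ i (β c)),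
    fun s i => Q165.TorsionPower.toT e (χ i (γ s)), ?_, ?_, ?_, ?_⟩
  · rintro r ⟨c, s, hr⟩ r' ⟨c', s', hr'⟩ heq
    apply hα ⟨c, s, hr⟩ ⟨c', s', hr'⟩
    by_contra hne
    obtain ⟨i, hi⟩ := sα _ hr _ hr' (sub_ne_zero.mpr hne)
    apply hi
    have h1 := congrArg (fun f => ((f i : Q165.TorsionPower.T e) : AddCircle (1 : ℚ))) heq
    simp only at h1
    rw [Q165.TorsionPower.toT_val (te _ hr i).1, Q165.TorsionPower.toT_val (te _ hr' i).1] at h1
    rw [map_sub, h1, sub_self]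
  · rintro c ⟨r, s, hr⟩ c' ⟨r', s', hr'⟩ heq
    apply hβ ⟨r, s, hr⟩ ⟨r', s', hr'⟩
    by_contra hne
    obtain ⟨i, hi⟩ := sβ _ hr _ hr' (sub_ne_zero.mpr hne)
    apply hi
    have h1 := congrArg (fun f => ((f i : Q165.TorsionPower.T e) : AddCircle (1 : ℚ))) heq
    simp only at h1
    rw [Q165.TorsionPower.toT_val (te _ hr i).2.1,
      Q165.TorsionPower.toT_val (te _ hr' i).2.1] at h1
    rw [map_sub, h1, sub_self]
  · rintro s ⟨r, c, hr⟩ s' ⟨r', c', hr'⟩ heq
    apply hγ ⟨r, c, hr⟩ ⟨r', c', hr'⟩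
    by_contra hne
    obtain ⟨i, hi⟩ := sγ _ hr _ hr' (sub_ne_zero.mpr hne)
    apply hi
    have h1 := congrArg (fun f => ((f i : Q165.TorsionPower.T e) : AddCircle (1 : ℚ))) heq
    simp only at h1
    rw [Q165.TorsionPower.toT_val (te _ hr i).2.2,
      Q165.TorsionPower.toT_val (te _ hr' i).2.2] at h1
    rw [map_sub, h1, sub_self]
  · intro r c s hr
    funext i
    apply Subtype.ext
    obtain ⟨h1, h2, h3⟩ := te _ hr i
    show (Q165.TorsionPower.toT e (χ i (α r)) : AddCircle (1 : ℚ)) +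
      (Q165.TorsionPower.toT e (χ i (β c)) : AddCircle (1 : ℚ)) = _
    rw [Q165.TorsionPower.toT_val h1, Q165.TorsionPower.toT_val h2,
      Q165.TorsionPower.toT_val h3, ← map_add, h r c s hr]

/-- In a bitrade, the rows (columns, symbols) of `B` occur in `W`. -/
theorem card_le {R C S : Type} (W B : Finset (R × C × S)) (h : IsBitrade W B) :
    B.card ≤ W.card := by
  classical
  obtain ⟨-, -, -, hB, -, hcell, -, -⟩ := h
  have hex : ∀ p : R × C × S, ∃ q : R × C × S, p ∈ B → q ∈ W ∧ q.1 = p.1 ∧ q.2.1 = p.2.1 := by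
    rintro ⟨r, c, s⟩
    by_cases hp : (r, c, s) ∈ B
    · obtain ⟨s', hs'⟩ := (hcell r c).mpr ⟨s, hp⟩
      exact ⟨(r, c, s'), fun _ => ⟨hs', rfl, rfl⟩⟩
    · exact ⟨(r, c, s), fun h => absurd h hp⟩
  choose f hf using hex
  apply Finset.card_le_card_of_injOn f
  · intro p hp
    exact (hf p hp).1
  · intro p hp q hq hpq
    have h1 := hf p hp
    have h2 := hf q hq
    apply (hB p hp q hq).1
    · rw [← h1.2.1, hpq, h2.2.1]
    · rw [← h1.2.2, hpq, h2.2.2]

/-- The set of nonzero differences of values at the members of `P`. -/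
theorem diffs {R C S : Type} (P : Finset (R × C × S)) {A : Type u} [AddCommGroup A]
    (f : R × C × S → A) :
    ∃ F : Finset A, F.card ≤ P.card * P.card ∧ (∀ a ∈ F, a ≠ 0) ∧
      ∀ p ∈ P, ∀ q ∈ P, f p - f q ≠ 0 → f p - f q ∈ F := by
  classical
  refine ⟨((P ×ˢ P).image (fun x => f x.1 - f x.2)).filter (fun a => a ≠ 0), ?_, ?_, ?_⟩
  · refine (Finset.card_filter_le _ _).trans (Finset.card_image_le.trans ?_)
    rw [Finset.card_product]
  · intro a ha
    exact (mem_filter.mp ha).2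
  · intro p hp q hq hne
    rw [mem_filter, mem_image]
    exact ⟨⟨(p, q), mem_product.mpr ⟨hp, hq⟩, rfl⟩, hne⟩

/-- Both mates embed in a group of logarithmic rank. -/
theorem main {R C S : Type} (W B : Finset (R × C × S)) (hWB : IsBitrade W B)
    (A : Type u) [AddCommGroup A] (hW : Embeds W A) (hB : Embeds B A) :
    ∃ (G : Type) (_ : AddCommGroup G), RankLE G (Nat.log 2 (6 * W.card ^ 2) + 1) ∧
      Embeds W G ∧ Embeds B G := by
  classical
  obtain ⟨α, β, γ, hα, hβ, hγ, h⟩ := hW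
  obtain ⟨α', β', γ', hα', hβ', hγ', h'⟩ := hB
  have hBW := card_le W B hWB
  obtain ⟨F1, c1, n1, d1⟩ := diffs W (fun p => α p.1)
  obtain ⟨F2, c2, n2, d2⟩ := diffs W (fun p => β p.2.1)
  obtain ⟨F3, c3, n3, d3⟩ := diffs W (fun p => γ p.2.2)
  obtain ⟨F4, c4, n4, d4⟩ := diffs B (fun p => α' p.1)
  obtain ⟨F5, c5, n5, d5⟩ := diffs B (fun p => β' p.2.1)
  obtain ⟨F6, c6, n6, d6⟩ := diffs B (fun p => γ' p.2.2)
  let F := F1 ∪ F2 ∪ F3 ∪ F4 ∪ F5 ∪ F6
  have hFcard : F.card ≤ 6 * W.card ^ 2 := by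
    have hBB : B.card * B.card ≤ W.card * W.card := Nat.mul_le_mul hBW hBW
    have u1 := Finset.card_union_le (F1 ∪ F2 ∪ F3 ∪ F4 ∪ F5) F6
    have u2 := Finset.card_union_le (F1 ∪ F2 ∪ F3 ∪ F4) F5
    have u3 := Finset.card_union_le (F1 ∪ F2 ∪ F3) F4
    have u4 := Finset.card_union_le (F1 ∪ F2) F3
    have u5 := Finset.card_union_le F1 F2
    rw [pow_two]
    show (F1 ∪ F2 ∪ F3 ∪ F4 ∪ F5 ∪ F6).card ≤ _
    omega
  have hFne : ∀ a ∈ F, a ≠ 0 := by
    intro a ha
    simp only [F, mem_union] at ha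
    rcases ha with ((((ha | ha) | ha) | ha) | ha) | ha
    · exact n1 a ha
    · exact n2 a ha
    · exact n3 a ha
    · exact n4 a ha
    · exact n5 a ha
    · exact n6 a ha
  obtain ⟨χ, hχ⟩ := Q165.Separate.exists_family (6 * W.card ^ 2) F hFne hFcard
  -- common exponent
  let V : Finset (AddCircle (1 : ℚ)) :=
    (univ ×ˢ W).image (fun x => χ x.1 (α x.2.1)) ∪
    (univ ×ˢ W).image (fun x => χ x.1 (β x.2.2.1)) ∪
    (univ ×ˢ W).image (fun x => χ x.1 (γ x.2.2.2)) ∪
    (univ ×ˢ B).image (fun x => χ x.1 (α' x.2.1)) ∪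
    (univ ×ˢ B).image (fun x => χ x.1 (β' x.2.2.1)) ∪
    (univ ×ˢ B).image (fun x => χ x.1 (γ' x.2.2.2))
  obtain ⟨e, he, hV⟩ := Q165.TorsionPower.exists_exponent V
  have memW : ∀ (i : Fin (Nat.log 2 (6 * W.card ^ 2) + 1)) (p : R × C × S), p ∈ W →
      (i, p) ∈ (univ ×ˢ W : Finset (Fin (Nat.log 2 (6 * W.card ^ 2) + 1) × (R × C × S))) :=
    fun i p hp => mem_product.mpr ⟨mem_univ _, hp⟩
  have memB : ∀ (i : Fin (Nat.log 2 (6 * W.card ^ 2) + 1)) (p : R × C × S), p ∈ B →
      (i, p) ∈ (univ ×ˢ B : Finset (Fin (Nat.log 2 (6 * W.card ^ 2) + 1) × (R × C × S))) :=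
    fun i p hp => mem_product.mpr ⟨mem_univ _, hp⟩
  refine ⟨Fin (Nat.log 2 (6 * W.card ^ 2) + 1) → Q165.TorsionPower.T e, inferInstance,
    Q165.TorsionPower.generated _ he, ?_, ?_⟩
  · apply reduce W α β γ hα hβ hγ h χ e
    · intro p hp i
      refine ⟨hV _ ?_, hV _ ?_, hV _ ?_⟩
      · simp only [V, mem_union]
        exact Or.inl (Or.inl (Or.inl (Or.inl (Or.inl (mem_image.mpr ⟨_, memW i p hp, rfl⟩)))))
      · simp only [V, mem_union]
        exact Or.inl (Or.inl (Or.inl (Or.inl (Or.inr (mem_image.mpr ⟨_, memW i p hp, rfl⟩)))))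
      · simp only [V, mem_union]
        exact Or.inl (Or.inl (Or.inl (Or.inr (mem_image.mpr ⟨_, memW i p hp, rfl⟩))))
    · intro p hp q hq hne
      exact hχ _ (by simp only [F, mem_union]; exact Or.inl (Or.inl (Or.inl (Or.inl (Or.inl (d1 p hp q hq hne))))))
    · intro p hp q hq hne
      exact hχ _ (by simp only [F, mem_union]; exact Or.inl (Or.inl (Or.inl (Or.inl (Or.inr (d2 p hp q hq hne))))))
    · intro p hp q hq hne
      exact hχ _ (by simp only [F, mem_union]; exact Or.inl (Or.inl (Or.inl (Or.inr (d3 p hp q hq hne)))))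
  · apply reduce B α' β' γ' hα' hβ' hγ' h' χ e
    · intro p hp i
      refine ⟨hV _ ?_, hV _ ?_, hV _ ?_⟩
      · simp only [V, mem_union]
        exact Or.inl (Or.inl (Or.inr (mem_image.mpr ⟨_, memB i p hp, rfl⟩)))
      · simp only [V, mem_union]
        exact Or.inl (Or.inr (mem_image.mpr ⟨_, memB i p hp, rfl⟩))
      · simp only [V, mem_union]
        exact Or.inr (mem_image.mpr ⟨_, memB i p hp, rfl⟩)
    · intro p hp q hq hne
      exact hχ _ (by simp only [F, mem_union]; exact Or.inl (Or.inl (Or.inr (d4 p hp q hq hne))))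
    · intro p hp q hq hne
      exact hχ _ (by simp only [F, mem_union]; exact Or.inl (Or.inr (d5 p hp q hq hne)))
    · intro p hp q hq hne
      exact hχ _ (by simp only [F, mem_union]; exact Or.inr (d6 p hp q hq hne))

theorem rho_le {R C S : Type} (W B : Finset (R × C × S)) (hWB : IsBitrade W B)
    (A : Type u) [AddCommGroup A] (hW : Embeds W A) (hB : Embeds B A) :
    rho W B ≤ Nat.log 2 (6 * W.card ^ 2) + 1 := by
  apply Nat.sInf_le
  exact main W B hWB A hW hB

/-- (1) If both mates of a latin bitrade `(W, B)` embed in an abelian group, then they embed in an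
abelian group of rank at most `log₂ (6 |W|²) + 1`.  (2) Consequently the least rank `rho` does not
grow linearly along any family of such bitrades whose sizes tend to infinity. -/
theorem result :
    (∀ (R C S : Type) (W B : Finset (R × C × S)), IsBitrade W B →
      (∃ (A : Type u) (_ : AddCommGroup A), Embeds W A ∧ Embeds B A) →
      rho W B ≤ Nat.log 2 (6 * W.card ^ 2) + 1 ∧
      ∃ (G : Type) (_ : AddCommGroup G), RankLE G (Nat.log 2 (6 * W.card ^ 2) + 1) ∧
        Embeds W G ∧ Embeds B G) ∧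
    ¬ ∃ (c : ℝ) (R C S : ℕ → Type) (W B : ∀ n, Finset (R n × C n × S n)), 0 < c ∧
      (∀ n, IsBitrade (W n) (B n)) ∧
      (∀ n, ∃ (A : Type u) (_ : AddCommGroup A), Embeds (W n) A ∧ Embeds (B n) A) ∧
      Tendsto (fun n => (W n).card) atTop atTop ∧
      ∀ n, c * ((W n).card : ℝ) ≤ rho (W n) (B n) := by
  refine ⟨?_, ?_⟩
  · rintro R C S W B hWB ⟨A, _, hW, hB⟩
    exact ⟨rho_le W B hWB A hW hB, main W B hWB A hW hB⟩
  · rintro ⟨c, R, C, S, W, B, hc, hWB, hA, hlim, hlow⟩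
    have hbound : ∀ n, c * ((W n).card : ℝ) ≤ (Nat.log 2 (6 * (W n).card ^ 2) + 1 : ℕ) := by
      intro n
      obtain ⟨A, _, hW, hB⟩ := hA n
      exact (hlow n).trans (by exact_mod_cast rho_le (W n) (B n) (hWB n) A hW hB)
    have hlog2 : 0 < Real.log 2 := Real.log_pos (by norm_num)
    have e1 : ∀ᶠ x : ℝ in atTop, ‖Real.log x‖ ≤ (c * Real.log 2 / 4) * ‖x‖ :=
      Real.isLittleO_log_id_atTop.def (by positivity)
    have e2 : ∀ᶠ x : ℝ in atTop, Real.log 6 / Real.log 2 + 1 < c / 4 * x := by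
      have : Tendsto (fun x : ℝ => c / 4 * x) atTop atTop :=
        tendsto_id.const_mul_atTop (by positivity)
      exact this.eventually_gt_atTop _
    have hlimR : Tendsto (fun n => ((W n).card : ℝ)) atTop atTop :=
      tendsto_natCast_atTop_atTop.comp hlim
    obtain ⟨n, h1, h2, h3⟩ := ((hlimR.eventually e1).and ((hlimR.eventually e2).and
      (hlimR.eventually_ge_atTop 1))).exists
    set k : ℝ := ((W n).card : ℝ) with hk
    have hkpos : 0 < k := lt_of_lt_of_le one_pos h3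
    have hlogk : 0 ≤ Real.log k := Real.log_nonneg h3
    rw [Real.norm_of_nonneg hlogk, Real.norm_of_nonneg hkpos.le] at h1
    have h4 : (Nat.log 2 (6 * (W n).card ^ 2) : ℝ) ≤ Real.log (6 * k ^ 2) / Real.log 2 := by
      have hne : 6 * (W n).card ^ 2 ≠ 0 := by
        have : 0 < (W n).card := by
          have := hkpos
          rw [hk] at this
          exact_mod_cast this
        positivity
      have h5 := Nat.pow_log_le_self 2 hne
      have h6 : (2 : ℝ) ^ (Nat.log 2 (6 * (W n).card ^ 2)) ≤ 6 * k ^ 2 := by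
        rw [hk]
        exact_mod_cast h5
      rw [le_div_iff₀ hlog2, ← Real.log_pow]
      exact Real.log_le_log (by positivity) h6
    have h7 : Real.log (6 * k ^ 2) = Real.log 6 + 2 * Real.log k := by
      rw [Real.log_mul (by norm_num) (by positivity), Real.log_pow]
      norm_num
    have h8 := hbound n
    push_cast at h8
    rw [← hk] at h8
    have h9 : Real.log (6 * k ^ 2) / Real.log 2 ≤ Real.log 6 / Real.log 2 + c / 2 * k := by
      rw [h7, add_div]
      have : 2 * Real.log k / Real.log 2 ≤ c / 2 * k := by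
        rw [div_le_iff₀ hlog2]
        nlinarith
      linarith
    nlinarith

end Pool.Agent.Results.MP_4671c3_co.LogRank
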